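import Pool.Agent.H79.LBL.Proof

/-!
# The short form of the theorem implies the earlier form, and every chain has a profile
-/

open MeasureTheory Filter Topology ProbabilityTheory
open scoped NNReal BoundedContinuousFunction

namespace Pool.LBL

/-- The function `x ↦ d_x` exists (each `d_x` is nonincreasing with values in `[0, 1]`). -/
theorem exists_profile {S : Type} [MeasurableSpace S] {P : ℝ≥0 → S → Measure S} {π : Measure S}
    (h : IsMarkov P π) : ∃ F : S → Prof, IsProfile P π F :=
  ⟨fun x => ofO ((mkM h).profile x), fun _ _ => rfl⟩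

theorem convTo_of_tendsto_test {Φ : Prof → ℝ} (h : IsTest Φ) :
    ∃ Ψ : OProf →ᵇ ℝ, ∀ g, Ψ (toO g) = Φ g := by
  obtain ⟨⟨B, hB⟩, hc⟩ := h
  have hcont : Continuous (fun g : OProf => Φ (ofO g)) := by
    refine ⟨fun U hU => ?_⟩
    intro u g hg hug
    have := hc (fun n => ofO (u n)) (ofO g) hug
    exact this (hU.mem_nhds hg)
  exact ⟨BoundedContinuousFunction.ofNormedAddCommGroup (fun g => Φ (ofO g)) hcont B
    (fun g => hB (ofO g)), fun g => rfl⟩

/-- The short statement implies the earlier one. -/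
theorem old_of_new
    (hnew : ∀ (V : ℕ → Type) [∀ n, MeasurableSpace (V n)]
      (P : ∀ n, ℝ≥0 → V n → Measure (V n)) (π : ∀ n, Measure (V n)) (F : ∀ n, V n → Prof)
      (_ : ∀ n, IsChain (P n) (π n)) (_ : ∀ n, IsProfile (P n) (π n) (F n))
      (φ : ℕ → ℕ) (_ : StrictMono φ) (μ : Measure Prof) (_ : IsProbabilityMeasure μ)
      (_ : ∀ Φ : Prof → ℝ, IsTest Φ →
        Tendsto (fun n => ∫ x, Φ (F (φ n) x) ∂(π (φ n))) atTop (𝓝 (∫ f, Φ f ∂μ))),
      ∃ (S Ω : Type) (_ : MeasurableSpace S) (_ : MeasurableSpace Ω), Realises S Ω μ)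
    (C : ℕ → Pool.Agent.H95.MP.FiniteChain) (φ : ℕ → ℕ) (hφ : StrictMono φ)
    (μ : ProbabilityMeasure OProf)
    (hμ : Tendsto (fun n => (C (φ n)).lawF) atTop (𝓝 μ)) :
    ∃ (S : Type) (_ : MeasurableSpace S) (X : Pool.Agent.H95.MP.MarkovProcess S),
      Measurable X.profile ∧ X.π.map X.profile = (μ : Measure OProf) := by
  have hM : ∀ n, IsMarkov (fun t x => (C n).M.P t x) (C n).M.π := fun n =>
    ⟨fun t => ((C n).M.P t).measurable, fun t x => ((C n).M.markov t).isProbabilityMeasure x,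
      (C n).M.zero, (C n).M.add, (C n).M.prob, (C n).M.stat⟩
  have hCh : ∀ n, IsChain (fun t x => (C n).M.P t x) (C n).M.π := fun n =>
    ⟨(C n).fin, fun A => (C n).disc.forall_measurableSet A, hM n, (C n).standard,
      (C n).irreducible⟩
  have hp : IsProbabilityMeasure ((μ : Measure OProf).map ofO) :=
    Measure.isProbabilityMeasure_map measurable_ofO.aemeasurable
  obtain ⟨S, Ω, mS, mΩ, P, π, X, Q, F, ⟨h1, h2, h3, h4, h5, h6⟩, ⟨q1, q2, q3, q4, q5⟩, hF, hFm,
    hmap⟩ := hnew (fun n => (C n).S) (fun n t x => (C n).M.P t x) (fun n => (C n).M.π)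
      (fun n x => ofO ((C n).M.profile x)) hCh (fun n x t => rfl) φ hφ
      ((μ : Measure OProf).map ofO) hp (by
        intro Φ hΦ
        obtain ⟨Ψ, hΨ⟩ := convTo_of_tendsto_test hΦ
        rw [ProbabilityMeasure.tendsto_iff_forall_integral_tendsto] at hμ
        have h := hμ Ψ
        have hΨ' : ∀ g, Ψ g = Φ (ofO g) := fun g => hΨ (ofO g)
        have hΦm : Measurable Φ := by
          have : Φ = fun g => Ψ (toO g) := funext fun g => (hΨ g).symm
          rw [this]
          exact Ψ.continuous.measurable.comp measurable_toO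
        have e1 : ∀ n, ∫ ω, Ψ ω ∂((C (φ n)).lawF : Measure OProf)
            = ∫ x, Φ (ofO ((C (φ n)).M.profile x)) ∂((C (φ n)).M.π) := by
          intro n
          show ∫ ω, Ψ ω ∂((C (φ n)).M.π.map (C (φ n)).M.profile) = _
          rw [integral_map (Measurable.of_discrete).aemeasurable
            (Ψ.continuous.aestronglyMeasurable)]
          simp only [hΨ']
        have e2 : ∫ ω, Ψ ω ∂(μ : Measure OProf) = ∫ f, Φ f ∂((μ : Measure OProf).map ofO) := by
          rw [integral_map measurable_ofO.aemeasurable hΦm.aestronglyMeasurable]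
          simp only [hΨ']
        rw [e2] at h
        simp only [e1] at h
        exact h)
  have hpm : Measurable (fun (ω : Ω) (t : ℝ≥0) => X t ω) := measurable_pi_iff.mpr q1
  have hA : ∀ s : ℝ≥0, ∀ A : Set (ℝ≥0 → S), MeasurableSet[Pool.Agent.H95.MP.past S s] A →
      MeasurableSet[past X s] ((fun (ω : Ω) (t : ℝ≥0) => X t ω) ⁻¹' A) := by
    intro s A hA
    have hle : Pool.Agent.H95.MP.past S s ≤
        (past X s).map (fun (ω : Ω) (t : ℝ≥0) => X t ω) := by
      refine iSup₂_le fun r hr => ?_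
      rintro A ⟨B, hB, rfl⟩
      exact MeasurableSpace.measurableSet_generateFrom ⟨r, hr, B, hB, rfl⟩
    exact hle A hA
  have hpast : ∀ s : ℝ≥0, Pool.Agent.H95.MP.past S s ≤ MeasurableSpace.pi := by
    intro s
    refine iSup₂_le fun r _ => ?_
    exact (measurable_pi_apply r).comap_le
  have hmk : IsMarkov P π := ⟨h1, h2, h3, h4, h5, h6⟩
  have hprofile : (mkM hmk).profile = fun x => toO (F x) := by
    funext x
    exact Subtype.ext (funext fun t => (hF x t).symm)
  let L : Kernel S (ℝ≥0 → S) := ⟨fun x => (Q x).map (fun (ω : Ω) (t : ℝ≥0) => X t ω),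
    (Measure.measurable_map _ hpm).comp q2⟩
  have hL : ∀ x, L x = (Q x).map (fun (ω : Ω) (t : ℝ≥0) => X t ω) := fun x => rfl
  have hLm : IsMarkovKernel L := ⟨fun x => by
    have := q3 x
    rw [hL]
    exact Measure.isProbabilityMeasure_map hpm.aemeasurable⟩
  have hstart : ∀ x, (L x).map (fun ω => ω 0) = Measure.dirac x := by
    intro x
    rw [hL, Measure.map_map (measurable_pi_apply 0) hpm]
    exact q4 x
  have hmp : ∀ (x : S) (s t : ℝ≥0) (A : Set (ℝ≥0 → S)) (B : Set S),
      MeasurableSet[Pool.Agent.H95.MP.past S s] A → MeasurableSet B →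
      L x (A ∩ {ω | ω (s + t) ∈ B}) = ∫⁻ ω in A, (mkM hmk).P t (ω s) B ∂(L x) := by
    intro x s t A B hAm hB
    have hA' : MeasurableSet A := hpast s A hAm
    have hS : MeasurableSet (A ∩ {ω : ℝ≥0 → S | ω (s + t) ∈ B}) :=
      hA'.inter ((measurable_pi_apply (s + t)) hB)
    have hfm : Measurable (fun ω : ℝ≥0 → S => P t (ω s) B) :=
      ((Measure.measurable_coe hB).comp (h1 t)).comp (measurable_pi_apply s)
    have e : ∫⁻ ω in A, (mkM hmk).P t (ω s) B ∂(L x) = ∫⁻ ω in A, P t (ω s) B ∂(L x) := rfl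
    rw [e, hL, Measure.map_apply hpm hS, Measure.restrict_map hpm hA', lintegral_map hfm hpm]
    exact q5 x s t _ B (hA s A hAm) hB
  refine ⟨S, mS, ⟨mkM hmk, L, hLm, hstart, hmp⟩, ?_, ?_⟩
  · show Measurable (mkM hmk).profile
    rw [hprofile]
    exact measurable_toO.comp hFm
  · show π.map (mkM hmk).profile = (μ : Measure OProf)
    rw [hprofile]
    have : (fun x => toO (F x)) = toO ∘ F := rfl
    rw [this, ← Measure.map_map measurable_toO hFm, hmap,
      Measure.map_map measurable_toO measurable_ofO]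
    exact Measure.map_id

end Pool.LBL
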