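import Mathlib

/-!
# Stationary distance profiles of Markov chains: definitions
-/

open MeasureTheory Filter Topology
open scoped NNReal

namespace Pool.LBL

/-- Total variation distance `sup_A |μ(A) - ν(A)|`. -/
noncomputable def tv {S : Type} [MeasurableSpace S] (μ ν : Measure S) : ℝ :=
  ⨆ A : {A : Set S // MeasurableSet A}, |μ.real A - ν.real A|

/-- The space `𝓜` of nonincreasing functions `[0, ∞) → [0, 1]`. -/
structure Prof where
  /-- the function -/
  f : ℝ≥0 → ℝ
  anti : Antitone f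
  mem : ∀ t, 0 ≤ f t ∧ f t ≤ 1

/-- `u n → g` at every continuity point `t > 0` of `g`. -/
def ConvTo (u : ℕ → Prof) (g : Prof) : Prop :=
  ∀ t : ℝ≥0, 0 < t → ContinuousAt g.f t → Tendsto (fun n => (u n).f t) atTop (𝓝 (g.f t))

/-- `U` is open: a sequence tending to a point of `U` is in `U` from some index on. -/
def IsOpenSet (U : Prof → Prop) : Prop :=
  ∀ (u : ℕ → Prof) (g : Prof), ConvTo u g → U g → ∀ᶠ n in atTop, U (u n)

/-- The sigma-algebra of `𝓜`, generated by the open sets. -/
instance : MeasurableSpace Prof := MeasurableSpace.generateFrom {U | IsOpenSet U}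

/-- `Φ : 𝓜 → ℝ` is bounded and continuous. -/
def IsTest (Φ : Prof → ℝ) : Prop :=
  (∃ B : ℝ, ∀ f, |Φ f| ≤ B) ∧
    ∀ (u : ℕ → Prof) (g : Prof), ConvTo u g → Tendsto (fun n => Φ (u n)) atTop (𝓝 (Φ g))

/-- `P t x`, the law at time `t` of the process started at `x`, are Markov kernels on the
measurable space `S` with the Chapman-Kolmogorov equations, and `π` is a stationary
distribution. -/
def IsMarkov {S : Type} [MeasurableSpace S] (P : ℝ≥0 → S → Measure S) (π : Measure S) : Prop :=
  (∀ t, Measurable (P t)) ∧ (∀ t x, IsProbabilityMeasure (P t x)) ∧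
    (∀ x, P 0 x = Measure.dirac x) ∧ (∀ s t x, P (s + t) x = (P s x).bind (P t)) ∧
    IsProbabilityMeasure π ∧ ∀ t, π.bind (P t) = π

/-- Finite-state irreducible continuous-time chain: `V` is finite, all its subsets are measurable,
the transition probabilities are continuous at `t = 0`. -/
def IsChain {V : Type} [MeasurableSpace V] (P : ℝ≥0 → V → Measure V) (π : Measure V) : Prop :=
  Finite V ∧ (∀ A : Set V, MeasurableSet A) ∧ IsMarkov P π ∧
    (∀ x, Tendsto (fun t => P t x {x}) (𝓝 0) (𝓝 1)) ∧ ∀ x y, ∃ t, P t x {y} ≠ 0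

/-- `F x` is the function `d_x(t) = ‖P_x(X_t ∈ ·) - π‖`. -/
def IsProfile {S : Type} [MeasurableSpace S] (P : ℝ≥0 → S → Measure S) (π : Measure S)
    (F : S → Prof) : Prop :=
  ∀ x t, (F x).f t = tv (P t x) π

/-- The sigma-algebra on `Ω` generated by the `X r`, `r ≤ s`. -/
def past {S Ω : Type} [MeasurableSpace S] (X : ℝ≥0 → Ω → S) (s : ℝ≥0) : MeasurableSpace Ω :=
  MeasurableSpace.generateFrom {A | ∃ r ≤ s, ∃ B, MeasurableSet B ∧ A = X r ⁻¹' B}

/-- The random variables `X t : Ω → S` are, under the law `Q x` on `Ω`, a Markov process started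
at `x` with transition laws `P`. -/
def IsProcess {S Ω : Type} [MeasurableSpace S] [MeasurableSpace Ω] (P : ℝ≥0 → S → Measure S)
    (X : ℝ≥0 → Ω → S) (Q : S → Measure Ω) : Prop :=
  (∀ t, Measurable (X t)) ∧ Measurable Q ∧ (∀ x, IsProbabilityMeasure (Q x)) ∧
    (∀ x, (Q x).map (X 0) = Measure.dirac x) ∧
    ∀ (x : S) (s t : ℝ≥0) (A : Set Ω) (B : Set S), MeasurableSet[past X s] A → MeasurableSet B →
      Q x (A ∩ X (s + t) ⁻¹' B) = ∫⁻ ω in A, P t (X s ω) B ∂(Q x)

/-- `μ` is the law of the random function `F(t) = d_X(t)`, `X ∼ π`, of a continuous-time Markov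
process on `S` with a stationary distribution `π`. -/
def Realises (S Ω : Type) [MeasurableSpace S] [MeasurableSpace Ω] (μ : Measure Prof) : Prop :=
  ∃ (P : ℝ≥0 → S → Measure S) (π : Measure S) (X : ℝ≥0 → Ω → S) (Q : S → Measure Ω)
    (F : S → Prof), IsMarkov P π ∧ IsProcess P X Q ∧ IsProfile P π F ∧ Measurable F ∧ π.map F = μ

end Pool.LBL
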