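import Pool.Agent.H79.LBL.Defs
import Pool.Agent.H95.MPLimit

/-!
# Stationary distance profiles: from the theorem of `Pool.Agent.H95.MPLimit` to the short form
-/

open MeasureTheory Filter Topology ProbabilityTheory
open scoped NNReal BoundedContinuousFunction

namespace Pool.LBL

abbrev OProf : Type := Pool.Agent.H95.MP.Prof

def toO (g : Prof) : OProf := ⟨g.f, g.anti, g.mem⟩
def ofO (g : OProf) : Prof := ⟨g.1, g.2.1, g.2.2⟩

theorem convTo_iff (u : ℕ → Prof) (g : Prof) :
    Pool.Agent.H95.MP.Prof.ConvTo (fun n => toO (u n)) (toO g) ↔ ConvTo u g := Iff.rfl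

theorem isOpen_toO {U : Set OProf} (hU : IsOpen U) : IsOpenSet (toO ⁻¹' U) :=
  fun u g hug hg => hU (fun n => toO (u n)) (toO g) hg hug

theorem isOpen_ofO {U : Prof → Prop} (hU : IsOpenSet U) : IsOpen {g : OProf | U (ofO g)} :=
  fun u g hg hug => hU (fun n => ofO (u n)) (ofO g) hug hg

theorem measurable_toO : Measurable toO := by
  refine measurable_generateFrom ?_
  intro U hU
  exact MeasurableSpace.measurableSet_generateFrom (isOpen_toO hU)

theorem measurable_ofO : Measurable ofO := by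
  refine measurable_generateFrom ?_
  intro U hU
  exact (isOpen_ofO hU).measurableSet

theorem isTest_comp (Φ : OProf →ᵇ ℝ) : IsTest (fun g => Φ (toO g)) := by
  refine ⟨⟨‖Φ‖, fun f => Φ.norm_coe_le_norm _⟩, fun u g hug => ?_⟩
  have h : Tendsto (fun n => toO (u n)) atTop (𝓝 (toO g)) := by
    rw [tendsto_nhds]
    intro U hU hg
    exact hU (fun n => toO (u n)) (toO g) hg hug
  exact (Φ.continuous.tendsto (toO g)).comp h

/-- The old structure from the new conditions. -/
def mkM {S : Type} [MeasurableSpace S] {P : ℝ≥0 → S → Measure S} {π : Measure S}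
    (h : IsMarkov P π) : Pool.Agent.H95.MP.MarkovSemigroup S where
  P t := ⟨P t, h.1 t⟩
  markov t := ⟨fun x => h.2.1 t x⟩
  zero := h.2.2.1
  add := h.2.2.2.1
  π := π
  prob := h.2.2.2.2.1
  stat := h.2.2.2.2.2

theorem nonempty_of {S : Type} [MeasurableSpace S] {P : ℝ≥0 → S → Measure S} {π : Measure S}
    (h : IsMarkov P π) : Nonempty S := by
  have := h.2.2.2.2.1
  exact MeasureTheory.nonempty_of_isProbabilityMeasure π

def mkC {S : Type} [mS : MeasurableSpace S] {P : ℝ≥0 → S → Measure S} {π : Measure S}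
    (h : IsChain P π) : Pool.Agent.H95.MP.FiniteChain where
  S := S
  fin := h.1
  ne := nonempty_of h.2.2.1
  ms := mS
  disc := ⟨h.2.1⟩
  M := mkM h.2.2.1
  standard := h.2.2.2.1
  irreducible := h.2.2.2.2

theorem past_le (S : Type) [MeasurableSpace S] (s : ℝ≥0) :
    past (fun (t : ℝ≥0) (ω : ℝ≥0 → S) => ω t) s ≤ Pool.Agent.H95.MP.past S s := by
  refine MeasurableSpace.generateFrom_le ?_
  rintro A ⟨r, hr, B, hB, rfl⟩
  exact (le_iSup₂ (f := fun u (_ : u ∈ Set.Iic s) =>
    MeasurableSpace.comap (fun ω : ℝ≥0 → S => ω u) inferInstance) r hr) _ ⟨B, hB, rfl⟩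

theorem main (V : ℕ → Type) [∀ n, MeasurableSpace (V n)]
    (P : ∀ n, ℝ≥0 → V n → Measure (V n)) (π : ∀ n, Measure (V n)) (F : ∀ n, V n → Prof)
    (hP : ∀ n, IsChain (P n) (π n)) (hF : ∀ n, IsProfile (P n) (π n) (F n))
    (φ : ℕ → ℕ) (hφ : StrictMono φ) (μ : Measure Prof) (hμ : IsProbabilityMeasure μ)
    (hlim : ∀ Φ : Prof → ℝ, IsTest Φ →
      Tendsto (fun n => ∫ x, Φ (F (φ n) x) ∂(π (φ n))) atTop (𝓝 (∫ f, Φ f ∂μ))) :
    ∃ (S Ω : Type) (_ : MeasurableSpace S) (_ : MeasurableSpace Ω), Realises S Ω μ := by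
  have := hμ
  let μ' : ProbabilityMeasure OProf :=
    ⟨μ.map toO, Measure.isProbabilityMeasure_map measurable_toO.aemeasurable⟩
  have hC : Tendsto (fun n => (mkC (hP (φ n))).lawF) atTop (𝓝 μ') := by
    rw [ProbabilityMeasure.tendsto_iff_forall_integral_tendsto]
    intro Φ
    have h1 := hlim (fun g => Φ (toO g)) (isTest_comp Φ)
    have e1 : ∀ n, ∫ ω, Φ ω ∂((mkC (hP (φ n))).lawF : Measure OProf)
        = ∫ x, Φ (toO (F (φ n) x)) ∂(π (φ n)) := by
      intro n
      have hd : DiscreteMeasurableSpace (V (φ n)) := ⟨(hP (φ n)).2.1⟩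
      have e : (mkM (hP (φ n)).2.2.1).profile = fun x => toO (F (φ n) x) := by
        funext x
        exact Subtype.ext (funext fun t => (hF (φ n) x t).symm)
      show ∫ ω, Φ ω ∂((π (φ n)).map (mkM (hP (φ n)).2.2.1).profile) = _
      rw [integral_map (Measurable.of_discrete).aemeasurable
        (Φ.continuous.aestronglyMeasurable), e]
    have e2 : ∫ ω, Φ ω ∂(μ' : Measure OProf) = ∫ f, Φ (toO f) ∂μ := by
      show ∫ ω, Φ ω ∂(μ.map toO) = _
      exact integral_map measurable_toO.aemeasurable (Φ.continuous.aestronglyMeasurable)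
    simp only [e1, e2]
    exact h1
  obtain ⟨S, mS, X, hmeas, hmap⟩ :=
    Pool.Agent.H95.MP.main_result (fun n => mkC (hP n)) φ hφ μ' hC
  refine ⟨S, ℝ≥0 → S, mS, MeasurableSpace.pi, fun t x => X.P t x, X.π, fun t ω => ω t,
    fun x => X.law x, fun x => ofO (X.profile x), ?_, ?_, ?_, ?_, ?_⟩
  · exact ⟨fun t => (X.P t).measurable, fun t x => (X.markov t).isProbabilityMeasure x, X.zero,
      X.add, X.prob, X.stat⟩
  · refine ⟨fun t => measurable_pi_apply t, X.law.measurable,
      fun x => X.law_markov.isProbabilityMeasure x, X.start, ?_⟩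
    intro x s t A B hA hB
    exact X.markov_property x s t A B (past_le S s A hA) hB
  · intro x t
    rfl
  · exact measurable_ofO.comp hmeas
  · have : (fun x => ofO (X.profile x)) = ofO ∘ X.profile := rfl
    rw [this, ← Measure.map_map measurable_ofO hmeas, hmap]
    show (μ.map toO).map ofO = μ
    rw [Measure.map_map measurable_ofO measurable_toO]
    exact Measure.map_id

end Pool.LBL
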